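import Pool.Agent.Helper91.LIN.Fin9
import Pool.Agent.Helper45.TC.Last
import Pool.Agent.Helper45.TC.Log

/-!
# Tame representations of dimension at most one plus the unit rank

Let `K` be a number field, let `r` be the rank of its group of units, and let `p` be an odd prime number
which divides neither the discriminant nor the class number of `K`. We prove that there are infinitely
many sets `S` of `r + 2` primes of `K` with the following property. Let `S'` be a finite set of primes of
`K` whose members with norm congruent to `1` modulo `p`, which do not lie above `p`, belong to `S`, and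
let `A` be any complete Noetherian local ring with finite residue field of characteristic `p`. Then all
continuous homomorphisms from the absolute Galois group of `K` to `GL_m(A)` with `m ≤ r + 1` and `m < p`,
which are unramified outside `S'` and at most tamely ramified in `S'`, and whose image in `PGL_m` of the
residue field is a `p`-group, have finite image (`result`). So `m = 2` is allowed for every number field
with infinitely many units, and `m` is allowed for every number field of degree at least `2 m`.

The Galois group `G_S(p)` of the maximal `p`-extension of `K` unramified outside `S` is infinite if `p` is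
not too small: there is a cyclic extension `L` of `K` of degree `p` which is unramified outside `S`, whose
group of units has rank `p (r + 1) - 1`, and there are exactly `p ^ (δ + 1)` continuous characters of the
absolute Galois group of `L` with values in the group of order `p` which are unramified outside the
primes above `S`; here `δ` is any number with `1 ≤ δ` and `2 δ ≤ p`. By results of Shafarevich and Koch
the Galois group of the maximal `p`-extension of `L` unramified outside the primes above `S`, which is a
subgroup of `G_S(p)` of index `p`, is generated by `δ + 1` elements and can be presented by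
`δ + p (r + 1)` relations. If `16 r + 22 ≤ p` and `δ = (p - 1) / 2`, then
`4 (δ + p (r + 1)) ≤ (δ + 1) ^ 2` (`golod`), and this group is infinite by the theorem of Golod and
Shafarevich.

For small `p` and large `r` there are other sets `S`, with `r + d` primes and such that `G_S(p)` is
generated by `d` elements (`small_primes`), and the set `S` can also be any set of primes whose symbols
are not in a certain hypersurface (`generic`).

Idea of the proof.

1. Class field theory modulo `p` for tame characters is proved from the beginning. Let `T` be a finite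
set of primes `v` of a number field `L` of degree one with norm congruent to `1` modulo `p`, where `p`
does not divide the class number `h` of `L`, and let `log_v` be a surjective homomorphism from the
multiplicative group of the residue field to `F_p`. The characters of the absolute Galois group of `L`
with values in `F_p` which are unramified outside `T` correspond to the vectors `κ` in `F_p ^ T` with
`∑ κ_v log_v ε = 0` for all units `ε`; the character is ramified at `v` if and only if `κ_v ≠ 0`, and its
value at a Frobenius element of another such prime `u` is `- h⁻¹ ∑ κ_v log_v π`, where `π` is a generator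
of `u ^ h` (`Helper77.TC.exists_kap`). The primes are chosen with a form of the density theorem of
Frobenius, with prescribed logarithms of the units and of finitely many other elements.

2. The first prime `v₀` of `S` is a prime such that all units of `K` are `p`-th powers modulo `v₀`. It
defines the cyclic extension `L` of `K` of degree `p`, which is ramified exactly at `v₀`; let `h` be a
generator of its Galois group and `w₀` the prime of `L` above `v₀`. Then `p` does not divide the class
number of `L`. The group `V` of the units of `L` modulo `p`-th powers is a module for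
`F_p[X] / (X ^ p)`, `X = h - 1`. It has dimension `(r + 1) p - 1`, and the kernel of `X` has dimension
at most `r + 1`: if `h e / e` is the `p`-th power of a unit `η`, then `η = h β / β` by Hilbert's
theorem 90, and the order of the norm of `β` at `v₀` modulo `p` is the only invariant. So the dual of
`V` is the sum of `r` Jordan blocks of size `p` and one of size `p - 1`. The logarithm at `w₀` is in the
kernel of `X` and not in the image of `X ^ (p - 1)`, because a character of the Galois group of `L` which
is invariant under the Galois group of `K` is unramified at `w₀`.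

3. The other primes of `S` split completely in `L`. The logarithms of the primes `w_1, ..., w_(r+1)` of
`L` above them on the units are chosen in the dual of `V` such that the characters unramified outside the
primes above `S` are exactly given by the polynomials `f` of degree at most `δ`: the coordinate at
`h ^ s w_i` is `f(s)` for all `i`. So the vector of the values at an element of the inertia group
of `h ^ s w_i` is `γ(s) = (1, s, ..., s ^ δ)`. The last prime `w_(r+1)` is chosen such that the vector
of the values at a Frobenius element of `h ^ s w_i` is `- γ(s + i)`, for `1 ≤ i ≤ r`; this is possible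
although the logarithms of the conjugates of a generator of `w_i ^ h` at `w_i` are not known.

4. Let a representation with values in `GL_m(O)` of the Galois group of `L` be given, where `O` is a
complete discrete valuation ring, and let it be congruent to `1` modulo the power `π ^ a` of the prime
element. The first coefficient is a linear map `φ` from `F_p ^ (δ + 1)` to the matrices over the residue
field. The relation between inertia and Frobenius elements says that the commutator of `φ(γ(s))` and
`φ(γ(s + i))` vanishes, `1 ≤ i ≤ r` (if `a` is the valuation of `p`, this holds because the norms of the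
primes `w_i` are congruent to `1` modulo `p ^ 2` for `i ≤ r`). Each entry of the commutator is an
alternating form `W` which is a sum of `m - 1` forms of rank two, and `m - 1 ≤ r`. Such a form which
vanishes at all pairs `(γ(s), γ(s + i))` is zero: `W(γ(t), γ(t + i))` is a polynomial in `t` of degree
less than `p`, so it is zero for `|i| ≤ m - 1`; if `i > m - 1` is minimal such that it is not zero, then
the matrix of the values of `W` at `γ(t + j)` and `γ(t + i + k)`, `0 ≤ j, k ≤ 2 m - 2`, is triangular
with diagonal entries different from zero, which contradicts the rank. So `φ` is commutative, and if `a`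
is the valuation of `p`, then the primes `h ^ s w_(r+1)` give `φ = 0`. By a criterion proved before
(`Helper91.KL.finite_of_critQ`) the image is finite. Finiteness for `L` gives finiteness for `K`
(`Helper45.LIN.descent_gal`).
-/

set_option autoImplicit false

open NumberField IsLocalRing Matrix

open scoped Pointwise

namespace Pool.Agent.Results.MP_924d78_nt.UnitRank

/-- The absolute Galois group of the field `K`. -/
abbrev G (K : Type) [Field K] : Type := AlgebraicClosure K ≃ₐ[K] AlgebraicClosure K

/-- The homomorphism `ρ` is unramified outside `S` and at most tamely ramified in `S`: for every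
number field `F` containing `K` and embedded over `K` into the fixed field of the kernel of `ρ`,
and every maximal ideal `P` of the ring of integers of `F` above a prime `q` of `K`, the ramification
index `e` of `P` over `q` is `1` if `q ∉ S` and is prime to the residue characteristic if `q ∈ S`. -/
def TameAt (K : Type) [Field K] [NumberField K] (S : Set (Ideal (𝓞 K))) {H : Type} [Group H]
    (ρ : G K →* H) : Prop :=
  ∀ (F : Type) [Field F] [NumberField F] [Algebra K F] (ι : F →ₐ[K] AlgebraicClosure K),
    ι.fieldRange ≤ IntermediateField.fixedField ρ.ker →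
    ∀ (P : Ideal (𝓞 F)), P.IsMaximal →
    ∀ (q : Ideal (𝓞 K)), q = P.comap (algebraMap (𝓞 K) (𝓞 F)) →
    ∀ e : ℕ, q.map (algebraMap (𝓞 K) (𝓞 F)) ≤ P ^ e →
      ¬ (q.map (algebraMap (𝓞 K) (𝓞 F)) ≤ P ^ (e + 1)) →
      (q ∉ S → e = 1) ∧ (q ∈ S → ¬ (ringChar (𝓞 K ⧸ q) ∣ e))

/-- The residual representation: the reduction of `ρ` modulo the maximal ideal. -/
noncomputable def residual {Γ A : Type} [Group Γ] [CommRing A] [IsLocalRing A] {n : ℕ}
    (ρ : Γ →* GL (Fin n) A) : Γ →* GL (Fin n) (ResidueField A) :=
  (Matrix.GeneralLinearGroup.map (residue A)).comp ρ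

/-- The projective image of `τ` is a `p`-group: for every `g` some power of `τ g` with exponent a
power of `p` is scalar. -/
def ProjectivelyP (p : ℕ) {Γ k : Type} [Group Γ] [Field k] {n : ℕ} (τ : Γ →* GL (Fin n) k) : Prop :=
  ∀ g, ∃ (j : ℕ) (a : k), ((τ g ^ p ^ j : GL (Fin n) k) : Matrix (Fin n) (Fin n) k) = a • 1

/-- The homomorphism `ψ` to the group of order `p` is continuous and unramified outside `S`: its kernel
is open and it is trivial on the inertia groups of all maximal ideals `Q` of the ring of all algebraic
integers which lie above a prime outside `S`. -/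
def UnramifiedOutside (p : ℕ) {K : Type} [Field K] [NumberField K] (S : Set (Ideal (𝓞 K)))
    (ψ : G K →* Multiplicative (ZMod p)) : Prop :=
  IsOpen (ψ.ker : Set (G K)) ∧ ∀ Q : Ideal (𝓞 (AlgebraicClosure K)), Q.IsMaximal →
    Q.comap (algebraMap (𝓞 K) (𝓞 (AlgebraicClosure K))) ∉ S → ∀ γ ∈ Q.inertia (G K), ψ γ = 1

/-- The set `S` consists of `r + 2` primes `P` of `K`, where `r` is the rank of the group of units, and
the residue fields of `P` have a prime number `q` of elements, where `q - 1` is divisible by `p`. -/
structure Primes (p : ℕ) (K : Type) [Field K] [NumberField K] (S : Finset (Ideal (𝓞 K))) : Prop where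
  card_eq : S.card = Units.rank K + 2
  maximal : ∀ P ∈ S, P.IsMaximal
  prime : ∀ P ∈ S, (Nat.card (𝓞 K ⧸ P)).Prime
  dvd : ∀ P ∈ S, p ∣ Nat.card (𝓞 K ⧸ P) - 1

/-- The number field `L` is a cyclic extension of `K` of degree `p` and unramified outside `S`, the rank
of its group of units is `p (r + 1) - 1`, where `r` is the rank for `K`, and there are `p ^ d` continuous
homomorphisms from the absolute Galois group of `L` to the group of order `p` which are unramified
outside the primes above `S`. -/
structure Layer (p : ℕ) (K L : Type) [Field K] [NumberField K] [Field L] [NumberField L] [Algebra K L]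
    (d : ℕ) (S : Set (Ideal (𝓞 K))) : Prop where
  galois : IsGalois K L
  degree : Module.finrank K L = p
  unramified : ∀ P : Ideal (𝓞 L), P.IsMaximal → P.comap (algebraMap (𝓞 K) (𝓞 L)) ∉ S →
    ¬ (P.comap (algebraMap (𝓞 K) (𝓞 L))).map (algebraMap (𝓞 K) (𝓞 L)) ≤ P ^ 2
  rank_eq : Units.rank L + 1 = p * (Units.rank K + 1)
  characters : Nat.card {ψ : G L →* Multiplicative (ZMod p) //
    UnramifiedOutside p {P | P.comap (algebraMap (𝓞 K) (𝓞 L)) ∈ S} ψ} = p ^ d

/-- Let `K` be a number field, and let `p` be an odd prime number which divides neither the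
discriminant nor the class number of `K`. Let `1 ≤ δ` and `2 δ ≤ p`. For every finite set `B` of primes
there is a set `S` of `r + 2` primes outside `B` as in `Primes`, where `r` is the rank of the group of
units, and a cyclic extension of degree `p` as in `Layer` with `p ^ (δ + 1)` characters, such that all
representations of dimension `m ≤ r + 1`, `m < p`, over complete Noetherian local rings, which are tame
and ramified only in a finite set `S'` whose members with norm congruent to `1` modulo `p` are in `S` or
above `p`, and whose projective residual image is a `p`-group, have finite image. -/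
theorem result (K : Type) [Field K] [NumberField K] (p : ℕ) [Fact p.Prime] (δ : ℕ) (hp : p ≠ 2)
    (hdisc : ¬ (p : ℤ) ∣ discr K) (hcl : ¬ p ∣ classNumber K) (hδ : 1 ≤ δ) (hδp : 2 * δ ≤ p)
    (B : Set (Ideal (𝓞 K))) (hB : B.Finite) :
    ∃ S : Finset (Ideal (𝓞 K)), (∀ P ∈ S, P ∉ B) ∧ Primes p K S ∧
      (∃ (L : Type) (_ : Field L) (_ : NumberField L) (_ : Algebra K L),
        Layer p K L (δ + 1) (S : Set (Ideal (𝓞 K)))) ∧
      ∀ S' : Set (Ideal (𝓞 K)), S'.Finite →
      (∀ P ∈ S', P.IsMaximal → (p : 𝓞 K) ∉ P → p ∣ Nat.card (𝓞 K ⧸ P) - 1 → P ∈ S) →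
      ∀ (A : Type) [CommRing A] [IsLocalRing A] [IsNoetherianRing A] [TopologicalSpace A]
      [CharP (ResidueField A) p] [Finite (ResidueField A)] [IsAdicComplete (maximalIdeal A) A],
      IsAdic (maximalIdeal A) → ∀ m ≤ Units.rank K + 1, m < p →
      ∀ (ρ : G K →* GL (Fin m) A), Continuous ρ →
      TameAt K S' ρ → ProjectivelyP p (residual ρ) → (Set.range ρ).Finite := by
  obtain ⟨S, h1, h2, ⟨L, _, _, _, h3, h4, h5, h6, h7⟩, h8⟩ :=
    Helper91.LIN.final K p δ hp hdisc hcl hδ hδp B hB
  exact ⟨S, fun P hP => (h2 P hP).1, ⟨h1, fun P hP => (h2 P hP).2.1, fun P hP => (h2 P hP).2.2.1,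
    fun P hP => (h2 P hP).2.2.2⟩, ⟨L, _, _, _, ⟨h3, h4, h5, h6, h7⟩⟩, h8⟩

/-- If `16 r + 22 ≤ p` and `δ = (p - 1) / 2`, then the inequality of Golod and Shafarevich for `δ + 1`
generators and `δ + p (r + 1)` relations is satisfied. -/
theorem golod {p r : ℕ} (hp : p.Prime) (h : 16 * r + 22 ≤ p) : 1 ≤ (p - 1) / 2 ∧
    2 * ((p - 1) / 2) ≤ p ∧ 4 * ((p - 1) / 2 + p * (r + 1)) ≤ ((p - 1) / 2 + 1) ^ 2 := by
  obtain ⟨k, hk⟩ := hp.odd_of_ne_two (by omega)
  have h1 : (p - 1) / 2 = k := by omega
  rw [h1]
  refine ⟨by omega, by omega, ?_⟩
  subst hk
  nlinarith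

/-- The set `S` consists of `r + d` primes `P` of `K`, where `r` is the rank of the group of units,
the residue fields of `P` have a prime number `q` of elements, where `q - 1` is divisible by `p` and
not by `p ^ 2`, and there are `p ^ d` continuous homomorphisms from the absolute Galois group to the
group of order `p` which are unramified outside `S`. -/
structure Generators (p : ℕ) (K : Type) [Field K] [NumberField K] (d : ℕ)
    (S : Finset (Ideal (𝓞 K))) : Prop where
  card_eq : S.card = Units.rank K + d
  maximal : ∀ P ∈ S, P.IsMaximal
  prime : ∀ P ∈ S, (Nat.card (𝓞 K ⧸ P)).Prime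
  dvd : ∀ P ∈ S, p ∣ Nat.card (𝓞 K ⧸ P) - 1
  not_dvd : ∀ P ∈ S, ¬ p ^ 2 ∣ Nat.card (𝓞 K ⧸ P) - 1
  characters : Nat.card {ψ : G K →* Multiplicative (ZMod p) //
    UnramifiedOutside p (S : Set (Ideal (𝓞 K))) ψ} = p ^ d

/-- Other sets `S`, for smaller prime numbers `p` and large unit rank `r`: let
`(n - 1) (2 d - 3) ≤ r`, and `n < p`, `2 ≤ d`, `2 d - 2 ≤ p`. There are infinitely many sets `S` of
`r + d` primes as in `Generators`, such that the representations as in `result` of dimension `m ≤ n`
have finite image. If `4 (r + d) ≤ d ^ 2`, then the group `G_S(p)` is infinite by the theorem of Golod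
and Shafarevich. -/
theorem small_primes (K : Type) [Field K] [NumberField K] (p : ℕ) [Fact p.Prime] (n d : ℕ)
    (hp : p ≠ 2) (hdisc : ¬ (p : ℤ) ∣ discr K) (hcl : ¬ p ∣ classNumber K) (hd : 2 ≤ d)
    (hn : n < p) (hdp : 2 * d - 2 ≤ p) (hr : (n - 1) * (2 * d - 3) ≤ Units.rank K)
    (B : Set (Ideal (𝓞 K))) (hB : B.Finite) :
    ∃ S : Finset (Ideal (𝓞 K)), (∀ P ∈ S, P ∉ B) ∧ Generators p K d S ∧
      ∀ S' : Set (Ideal (𝓞 K)), S'.Finite →
      (∀ P ∈ S', P.IsMaximal → (p : 𝓞 K) ∉ P → p ∣ Nat.card (𝓞 K ⧸ P) - 1 → P ∈ S) →
      ∀ (A : Type) [CommRing A] [IsLocalRing A] [IsNoetherianRing A] [TopologicalSpace A]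
      [CharP (ResidueField A) p] [Finite (ResidueField A)] [IsAdicComplete (maximalIdeal A) A],
      IsAdic (maximalIdeal A) → ∀ m ≤ n, ∀ (ρ : G K →* GL (Fin m) A), Continuous ρ →
      TameAt K S' ρ → ProjectivelyP p (residual ρ) → (Set.range ρ).Finite := by
  obtain ⟨S, h1, h2, h3, h4⟩ := Helper45.TC.final K p n d hp hdisc hcl hd hn hdp hr B hB
  exact ⟨S, fun P hP => (h2 P hP).1, ⟨h1, fun P hP => (h2 P hP).2.1, fun P hP => (h2 P hP).2.2.1,
    fun P hP => (h2 P hP).2.2.2.1, fun P hP => (h2 P hP).2.2.2.2, h3⟩, h4⟩

/-- If `16 n ^ 2` is at most the unit rank `r`, then `d` can be chosen in `small_primes` such that the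
inequality of Golod and Shafarevich for `d` generators and `r + d` relations is satisfied. -/
theorem exists_d {n r : ℕ} (h : 16 * n ^ 2 ≤ r) : ∃ d, 2 ≤ d ∧ (n - 1) * (2 * d - 3) ≤ r ∧
    4 * (r + d) ≤ d ^ 2 ∧ (d - 3) ^ 2 < 4 * (r + 1) :=
  Helper45.TC.exists_d h

/-- The function `L` is a logarithm modulo `p` of the residue field of `P`. -/
structure IsLog (p : ℕ) {K : Type} [Field K] [NumberField K] (P : Ideal (𝓞 K)) (L : 𝓞 K → ZMod p) :
    Prop where
  mul : ∀ x y, x ∉ P → y ∉ P → L (x * y) = L x + L y
  congr : ∀ x y, x ∉ P → x - y ∈ P → L x = L y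
  zero_iff : ∀ x, x ∉ P → (L x = 0 ↔ ∃ z, x - z ^ p ∈ P)

/-- The primes `P j` have prime norms `p * c j + 1`, where `c j` is prime to `p`, the functions `L j`
are logarithms modulo `p` of their residue fields, `π j` is a generator of the power of `P j` whose
exponent is the class number, and the `κ a` are a basis of the space of all vectors `x` with
`∑ x j * L j ε = 0` for all units `ε`. -/
structure Symbols (p : ℕ) (K : Type) [Field K] [NumberField K] {s d : ℕ} (P : Fin s → Ideal (𝓞 K))
    (c : Fin s → ℕ) (L : Fin s → 𝓞 K → ZMod p) (π : Fin s → 𝓞 K) (κ : Fin d → Fin s → ZMod p) :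
    Prop where
  injective : Function.Injective P
  maximal : ∀ j, (P j).IsMaximal
  prime : ∀ j, (Nat.card (𝓞 K ⧸ P j)).Prime
  card_eq : ∀ j, Nat.card (𝓞 K ⧸ P j) = p * c j + 1
  not_dvd : ∀ j, ¬ p ∣ c j
  log : ∀ j, IsLog p (P j) (L j)
  generator : ∀ j, Ideal.span {π j} = P j ^ classNumber K
  units : ∀ a, ∀ ε : (𝓞 K)ˣ, ∑ j, κ a j * L j ε = 0
  span : ∀ x : Fin s → ZMod p, (∀ ε : (𝓞 K)ˣ, ∑ j, x j * L j ε = 0) →
    ∃ e : Fin d → ZMod p, x = ∑ a, e a • κ a
  independent : LinearIndependent (ZMod p) κ

/-- The same is true for all sets of primes whose symbols are not in a hypersurface: let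
`(n - 1) (2 d - 3) + d ≤ s`. Then there is a nonzero polynomial `D` with integral coefficients, which
depends only on `n`, `d` and `s`, with the following property. Let `K` be a number field, and let
`p > n` be an odd prime number which does not divide the class number `h` of `K`. Let `S` be a set of
`s` primes of `K` with prime norms `p * c j + 1`, where `c j` is prime to `p`, such that there are
exactly `p ^ d` characters of order dividing `p` unramified outside `S`, and assume that `D` does not
vanish modulo `p` at the numbers `κ a j`, `(∑ κ a k * L k (π j)) / h` (the sum is over `k ≠ j`) and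
`c j`. Then the representations considered in `result` have finite image for this set `S`. -/
theorem generic (n d s : ℕ) (hd : 2 ≤ d) (hs : (n - 1) * (2 * d - 3) + d ≤ s) :
    ∃ D : MvPolynomial ((Fin s × Fin d) ⊕ (Fin s × Fin d) ⊕ Fin s) ℤ, D ≠ 0 ∧
      ∀ (K : Type) [Field K] [NumberField K] (p : ℕ) [Fact p.Prime], p ≠ 2 → n < p →
      ¬ p ∣ classNumber K → ∀ (P : Fin s → Ideal (𝓞 K)) (c : Fin s → ℕ)
      (L : Fin s → 𝓞 K → ZMod p) (π : Fin s → 𝓞 K) (κ : Fin d → Fin s → ZMod p),
      Symbols p K P c L π κ →
      MvPolynomial.aeval (Sum.elim (fun i => κ i.2 i.1) (Sum.elim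
        (fun i => (∑ k ∈ Finset.univ.erase i.1, κ i.2 k * L k (π i.1)) / (classNumber K : ZMod p))
        fun j => (c j : ZMod p))) D ≠ 0 →
      ∀ S' : Set (Ideal (𝓞 K)), S'.Finite →
      (∀ Q ∈ S', Q.IsMaximal → (p : 𝓞 K) ∉ Q → p ∣ Nat.card (𝓞 K ⧸ Q) - 1 → ∃ j, P j = Q) →
      ∀ (A : Type) [CommRing A] [IsLocalRing A] [IsNoetherianRing A] [TopologicalSpace A]
      [CharP (ResidueField A) p] [Finite (ResidueField A)] [IsAdicComplete (maximalIdeal A) A],
      IsAdic (maximalIdeal A) → ∀ m ≤ n, ∀ (ρ : G K →* GL (Fin m) A), Continuous ρ →
      TameAt K S' ρ → ProjectivelyP p (residual ρ) → (Set.range ρ).Finite := by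
  obtain ⟨D, hD0, hD⟩ := Helper45.TC.criterion n d s hd hs
  refine ⟨D, hD0, ?_⟩
  intro K _ _ p _ hp2 hn hK' P c L π κ h hne
  have hbot : ∀ j, P j ≠ ⊥ := by
    intro j hj
    have h1 := h.maximal j
    rw [hj] at h1
    exact RingOfIntegers.not_isField K (Ring.isField_iff_maximal_bot.2 h1)
  let v : Fin s → IsDedekindDomain.HeightOneSpectrum (𝓞 K) := fun j =>
    ⟨P j, (h.maximal j).isPrime, hbot j⟩
  have hcard : ∀ j, Helper45.TC.nm (v j) = p * c j + 1 := fun j => h.card_eq j
  exact hD K p hp2 hn hK' v (fun i j hij => h.injective (congrArg (fun w => w.asIdeal) hij))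
    (fun j => ⟨h.prime j, by rw [hcard, Nat.add_sub_cancel]; exact dvd_mul_right _ _⟩) c
    (fun j => by rw [hcard, Nat.add_sub_cancel]) h.not_dvd L
    (fun j => ⟨(h.log j).mul, (h.log j).congr, (h.log j).zero_iff⟩) π h.generator κ h.units h.span
    h.independent hne

end Pool.Agent.Results.MP_924d78_nt.UnitRank
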